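import Mathlib

set_option autoImplicit false

namespace Pool.Agent.Results.MP_cb32b9_nt.NotInBoseChowla

/-- `Bose₂(q,1)` for the finite field `F` with `q` elements, its quadratic extension `K` and the
generator `θ` of `Kˣ`: the residues `a` modulo `q² - 1` with `θᵃ = θ + v` for some `v ∈ F`. -/
def Bose (F K : Type) [Field F] [Field K] [Algebra F K] (θ : K) : Set (ZMod (Nat.card F ^ 2 - 1)) :=
  {a | ∃ v : F, θ ^ a.val = θ + algebraMap F K v}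

/-- The seven-mark Golomb ruler. -/
def T : Set ℤ := {0, 1, 4, 10, 18, 23, 25}

def sq {F : Type} [Field F] (τ ν : F) : ℕ → F
  | 0 => 0
  | 1 => 0
  | (t + 2) => τ * sq τ ν (t + 1) - ν * sq τ ν t + 1

def cq {F : Type} [Field F] (τ ν : F) : ℕ → F
  | 0 => 0
  | 1 => 1
  | (t + 2) => τ * cq τ ν (t + 1) - ν * cq τ ν t + 1 - τ

theorem sq_rec {F : Type} [Field F] (τ ν : F) (t : ℕ) :
    sq τ ν (t + 2) = τ * sq τ ν (t + 1) - ν * sq τ ν t + 1 := by rw [sq]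

theorem cq_rec {F : Type} [Field F] (τ ν : F) (t : ℕ) :
    cq τ ν (t + 2) = τ * cq τ ν (t + 1) - ν * cq τ ν t + 1 - τ := by rw [cq]

/-- No trace `τ` makes all the sums vanish. -/
theorem cert {F : Type} [Field F] (τ : F) (h10' : sq τ (τ ^ 2 + τ + 1) 10 = 0)
    (h23' : sq τ (τ ^ 2 + τ + 1) 23 = 0) (h25' : sq τ (τ ^ 2 + τ + 1) 25 = 0) : False := by
  have s0 : sq τ (τ ^ 2 + τ + 1) 0 = 0 := by rw [sq]
  have s1 : sq τ (τ ^ 2 + τ + 1) 1 = 0 := by rw [sq]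
  have s2 : sq τ (τ ^ 2 + τ + 1) 2 =
      1 := by
    rw [sq_rec τ _ 0, s1, s0]; ring
  have s3 : sq τ (τ ^ 2 + τ + 1) 3 =
      1 + τ := by
    rw [sq_rec τ _ 1, s2, s1]; ring
  have s4 : sq τ (τ ^ 2 + τ + 1) 4 =
      0 := by
    rw [sq_rec τ _ 2, s3, s2]; ring
  have s5 : sq τ (τ ^ 2 + τ + 1) 5 =
      -2 * τ - 2 * τ ^ 2 - τ ^ 3 := by
    rw [sq_rec τ _ 3, s4, s3]; ring
  have s6 : sq τ (τ ^ 2 + τ + 1) 6 =
      1 - 2 * τ ^ 2 - 2 * τ ^ 3 - τ ^ 4 := by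
    rw [sq_rec τ _ 4, s5, s4]; ring
  have s7 : sq τ (τ ^ 2 + τ + 1) 7 =
      1 + 3 * τ + 4 * τ ^ 2 + 3 * τ ^ 3 + τ ^ 4 := by
    rw [sq_rec τ _ 5, s6, s5]; ring
  have s8 : sq τ (τ ^ 2 + τ + 1) 8 =
      4 * τ ^ 2 + 8 * τ ^ 3 + 8 * τ ^ 4 + 4 * τ ^ 5 + τ ^ 6 := by
    rw [sq_rec τ _ 6, s7, s6]; ring
  have s9 : sq τ (τ ^ 2 + τ + 1) 9 =
      -4 * τ - 8 * τ ^ 2 - 6 * τ ^ 3 + 4 * τ ^ 5 + 3 * τ ^ 6 + τ ^ 7 := by
    rw [sq_rec τ _ 7, s8, s7]; ring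
  have s10 : sq τ (τ ^ 2 + τ + 1) 10 =
      1 - 8 * τ ^ 2 - 20 * τ ^ 3 - 26 * τ ^ 4 - 20 * τ ^ 5 - 9 * τ ^ 6 - 2 * τ ^ 7 := by
    rw [sq_rec τ _ 8, s9, s8]; ring
  have s11 : sq τ (τ ^ 2 + τ + 1) 11 =
      1 + 5 * τ + 12 * τ ^ 2 + 10 * τ ^ 3 - 6 * τ ^ 4 - 24 * τ ^ 5 - 27 * τ ^ 6 - 17 * τ ^ 7 - 6
      * τ ^ 8 - τ ^ 9 := by
    rw [sq_rec τ _ 9, s10, s9]; ring
  have s12 : sq τ (τ ^ 2 + τ + 1) 12 =
      12 * τ ^ 2 + 40 * τ ^ 3 + 64 * τ ^ 4 + 60 * τ ^ 5 + 31 * τ ^ 6 + 4 * τ ^ 7 - 6 * τ ^ 8 - 4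
      * τ ^ 9 - τ ^ 10 := by
    rw [sq_rec τ _ 10, s11, s10]; ring
  have s13 : sq τ (τ ^ 2 + τ + 1) 13 =
      -6 * τ - 18 * τ ^ 2 - 15 * τ ^ 3 + 24 * τ ^ 4 + 84 * τ ^ 5 + 117 * τ ^ 6 + 99 * τ ^ 7 + 54
      * τ ^ 8 + 18 * τ ^ 9 + 3 * τ ^ 10 := by
    rw [sq_rec τ _ 11, s12, s11]; ring
  have s14 : sq τ (τ ^ 2 + τ + 1) 14 =
      1 - 18 * τ ^ 2 - 70 * τ ^ 3 - 131 * τ ^ 4 - 140 * τ ^ 5 - 71 * τ ^ 6 + 22 * τ ^ 7 + 70 * τ
      ^ 8 + 60 * τ ^ 9 + 29 * τ ^ 10 + 8 * τ ^ 11 + τ ^ 12 := by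
    rw [sq_rec τ _ 12, s13, s12]; ring
  have s15 : sq τ (τ ^ 2 + τ + 1) 15 =
      1 + 7 * τ + 24 * τ ^ 2 + 21 * τ ^ 3 - 61 * τ ^ 4 - 224 * τ ^ 5 - 365 * τ ^ 6 - 371 * τ ^ 7
      - 248 * τ ^ 8 - 101 * τ ^ 9 - 15 * τ ^ 10 + 8 * τ ^ 11 + 5 * τ ^ 12 + τ ^ 13 := by
    rw [sq_rec τ _ 13, s14, s13]; ring
  have s16 : sq τ (τ ^ 2 + τ + 1) 16 =
      24 * τ ^ 2 + 112 * τ ^ 3 + 240 * τ ^ 4 + 280 * τ ^ 5 + 118 * τ ^ 6 - 176 * τ ^ 7 - 392 * τ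
      ^ 8 - 400 * τ ^ 9 - 260 * τ ^ 10 - 112 * τ ^ 11 - 30 * τ ^ 12 - 4 * τ ^ 13 := by
    rw [sq_rec τ _ 14, s15, s14]; ring
  have s17 : sq τ (τ ^ 2 + τ + 1) 17 =
      -8 * τ - 32 * τ ^ 2 - 28 * τ ^ 3 + 128 * τ ^ 4 + 504 * τ ^ 5 + 930 * τ ^ 6 + 1078 * τ ^ 7 +
      808 * τ ^ 8 + 328 * τ ^ 9 - 36 * τ ^ 10 - 152 * τ ^ 11 - 110 * τ ^ 12 - 44 * τ ^ 13 - 10 *
      τ ^ 14 - τ ^ 15 := by
    rw [sq_rec τ _ 15, s16, s15]; ring
  have s18 : sq τ (τ ^ 2 + τ + 1) 18 =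
      1 - 32 * τ ^ 2 - 168 * τ ^ 3 - 404 * τ ^ 4 - 504 * τ ^ 5 - 134 * τ ^ 6 + 708 * τ ^ 7 + 1528
      * τ ^ 8 + 1776 * τ ^ 9 + 1380 * τ ^ 10 + 736 * τ ^ 11 + 250 * τ ^ 12 + 36 * τ ^ 13 - 10 * τ
      ^ 14 - 6 * τ ^ 15 - τ ^ 16 := by
    rw [sq_rec τ _ 16, s17, s16]; ring
  have s19 : sq τ (τ ^ 2 + τ + 1) 19 =
      1 + 9 * τ + 40 * τ ^ 2 + 36 * τ ^ 3 - 236 * τ ^ 4 - 1008 * τ ^ 5 - 2066 * τ ^ 6 - 2646 * τ
      ^ 7 - 2108 * τ ^ 8 - 686 * τ ^ 9 + 676 * τ ^ 10 + 1240 * τ ^ 11 + 1034 * τ ^ 12 + 556 * τ ^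
      13 + 200 * τ ^ 14 + 45 * τ ^ 15 + 5 * τ ^ 16 := by
    rw [sq_rec τ _ 17, s18, s17]; ring
  have s20 : sq τ (τ ^ 2 + τ + 1) 20 =
      40 * τ ^ 2 + 240 * τ ^ 3 + 640 * τ ^ 4 + 840 * τ ^ 5 + 34 * τ ^ 6 - 2136 * τ ^ 7 - 4748 * τ
      ^ 8 - 6120 * τ ^ 9 - 5370 * τ ^ 10 - 3216 * τ ^ 11 - 1126 * τ ^ 12 + 12 * τ ^ 13 + 280 * τ
      ^ 14 + 180 * τ ^ 15 + 62 * τ ^ 16 + 12 * τ ^ 17 + τ ^ 18 := by
    rw [sq_rec τ _ 18, s19, s18]; ring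
  have s21 : sq τ (τ ^ 2 + τ + 1) 21 =
      -10 * τ - 50 * τ ^ 2 - 45 * τ ^ 3 + 400 * τ ^ 4 + 1848 * τ ^ 5 + 4150 * τ ^ 6 + 5754 * τ ^
      7 + 4684 * τ ^ 8 + 692 * τ ^ 9 - 4002 * τ ^ 10 - 6600 * τ ^ 11 - 6166 * τ ^ 12 - 3956 * τ ^
      13 - 1778 * τ ^ 14 - 521 * τ ^ 15 - 70 * τ ^ 16 + 12 * τ ^ 17 + 7 * τ ^ 18 + τ ^ 19 := by
    rw [sq_rec τ _ 19, s20, s19]; ring
  have s22 : sq τ (τ ^ 2 + τ + 1) 22 =
      1 - 50 * τ ^ 2 - 330 * τ ^ 3 - 965 * τ ^ 4 - 1320 * τ ^ 5 + 334 * τ ^ 6 + 5412 * τ ^ 7 +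
      12604 * τ ^ 8 + 17688 * τ ^ 9 + 16930 * τ ^ 10 + 10704 * τ ^ 11 + 3112 * τ ^ 12 - 1836 * τ
      ^ 13 - 3122 * τ ^ 14 - 2250 * τ ^ 15 - 1043 * τ ^ 16 - 324 * τ ^ 17 - 63 * τ ^ 18 - 6 * τ ^
      19 := by
    rw [sq_rec τ _ 20, s21, s20]; ring
  have s23 : sq τ (τ ^ 2 + τ + 1) 23 =
      1 + 11 * τ + 60 * τ ^ 2 + 55 * τ ^ 3 - 635 * τ ^ 4 - 3168 * τ ^ 5 - 7718 * τ ^ 6 - 11418 *
      τ ^ 7 - 9176 * τ ^ 8 + 1474 * τ ^ 9 + 16314 * τ ^ 10 + 26840 * τ ^ 11 + 27472 * τ ^ 12 +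
      19834 * τ ^ 13 + 10064 * τ ^ 14 + 3133 * τ ^ 15 + 119 * τ ^ 16 - 464 * τ ^ 17 - 273 * τ ^
      18 - 83 * τ ^ 19 - 14 * τ ^ 20 - τ ^ 21 := by
    rw [sq_rec τ _ 21, s22, s21]; ring
  have s24 : sq τ (τ ^ 2 + τ + 1) 24 =
      60 * τ ^ 2 + 440 * τ ^ 3 + 1400 * τ ^ 4 + 1980 * τ ^ 5 - 1217 * τ ^ 6 - 12144 * τ ^ 7 -
      29768 * τ ^ 8 - 44880 * τ ^ 9 - 45748 * τ ^ 10 - 29008 * τ ^ 11 - 3906 * τ ^ 12 + 15492 * τ
      ^ 13 + 21680 * τ ^ 14 + 17272 * τ ^ 15 + 9548 * τ ^ 16 + 3736 * τ ^ 17 + 966 * τ ^ 18 + 120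
      * τ ^ 19 - 14 * τ ^ 20 - 8 * τ ^ 21 - τ ^ 22 := by
    rw [sq_rec τ _ 22, s23, s22]; ring
  have s25 : sq τ (τ ^ 2 + τ + 1) 25 =
      -12 * τ - 72 * τ ^ 2 - 66 * τ ^ 3 + 960 * τ ^ 4 + 5148 * τ ^ 5 + 13501 * τ ^ 6 + 21087 * τ
      ^ 7 + 16168 * τ ^ 8 - 10648 * τ ^ 9 - 53492 * τ ^ 10 - 90376 * τ ^ 11 - 99634 * τ ^ 12 -
      78052 * τ ^ 13 - 41878 * τ ^ 14 - 11351 * τ ^ 15 + 3956 * τ ^ 16 + 6760 * τ ^ 17 + 4354 * τ
      ^ 18 + 1786 * τ ^ 19 + 490 * τ ^ 20 + 84 * τ ^ 21 + 7 * τ ^ 22 := by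
    rw [sq_rec τ _ 23, s24, s23]; ring
  have h10 := h10'
  have h23 := h23'
  have h25 := h25'
  rw [s10] at h10
  rw [s23] at h23
  rw [s25] at h25
  have h13 : (13 : F) = 0 := by
    linear_combination (51 + 456 * τ + 2846 * τ ^ 2 + 5605 * τ ^ 3 - 11317 * τ ^ 4 - 85316 * τ ^
      5 - 213442 * τ ^ 6 - 291693 * τ ^ 7 - 174350 * τ ^ 8 + 153009 * τ ^ 9 + 503787 * τ ^ 10 +
      648904 * τ ^ 11 + 532332 * τ ^ 12 + 291423 * τ ^ 13 + 93762 * τ ^ 14 + 2587 * τ ^ 15 -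
      14505 * τ ^ 16 - 7870 * τ ^ 17 - 2095 * τ ^ 18 - 278 * τ ^ 19 - 14 * τ ^ 20) * h10 + (-38 -
      38 * τ + 260 * τ ^ 2 + 573 * τ ^ 3 + 588 * τ ^ 4 + 290 * τ ^ 5 + 28 * τ ^ 6) * h23
  have hg : 6 + 8 * τ + 8 * τ ^ 2 + τ ^ 3 = 0 := by
    linear_combination (4 + 12 * τ + 11 * τ ^ 2 + 5 * τ ^ 3 + 6 * τ ^ 4 + 5 * τ ^ 5 + 9 * τ ^ 6 +
      3 * τ ^ 7 + 3 * τ ^ 9 + 6 * τ ^ 10 + 4 * τ ^ 11 + 8 * τ ^ 12 + 7 * τ ^ 13 + 9 * τ ^ 14 + 8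
      * τ ^ 15 + 11 * τ ^ 16 + 8 * τ ^ 17) * h10 + (2 + 10 * τ ^ 3) * h23 - (2 * τ + 7 * τ ^ 2 -
      4 * τ ^ 3 - 122 * τ ^ 4 - 491 * τ ^ 5 - 1199 * τ ^ 6 - 2293 * τ ^ 7 - 3891 * τ ^ 8 - 5750 *
      τ ^ 9 - 6308 * τ ^ 10 - 2955 * τ ^ 11 + 5341 * τ ^ 12 + 15580 * τ ^ 13 + 22167 * τ ^ 14 +
      21579 * τ ^ 15 + 15233 * τ ^ 16 + 7622 * τ ^ 17 + 2314 * τ ^ 18 + 21 * τ ^ 19 - 413 * τ ^
      20 - 250 * τ ^ 21 - 85 * τ ^ 22 - 18 * τ ^ 23 - 2 * τ ^ 24) * h13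
  have h1 : (1 : F) = 0 := by
    linear_combination (11 + 10 * τ + 2 * τ ^ 2 + 8 * τ ^ 3 + 7 * τ ^ 4 + τ ^ 5 + τ ^ 8 + 2 * τ ^
      9 + τ ^ 10 + 10 * τ ^ 11 + 12 * τ ^ 12 + 5 * τ ^ 13 + 8 * τ ^ 14 + 10 * τ ^ 15 + 10 * τ ^
      16 + 11 * τ ^ 17 + 7 * τ ^ 18 + 12 * τ ^ 19 + 12 * τ ^ 20 + 7 * τ ^ 21) * hg + (8 + 6 * τ +
      12 * τ ^ 2) * h25 - (5 + 4 * τ - 36 * τ ^ 2 - 73 * τ ^ 3 + 504 * τ ^ 4 + 3560 * τ ^ 5 +
      11576 * τ ^ 6 + 23961 * τ ^ 7 + 32145 * τ ^ 8 + 20376 * τ ^ 9 - 22906 * τ ^ 10 - 90127 * τ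
      ^ 11 - 152390 * τ ^ 12 - 177425 * τ ^ 13 - 153750 * τ ^ 14 - 98348 * τ ^ 15 - 41445 * τ ^
      16 - 4474 * τ ^ 17 + 9468 * τ ^ 18 + 9366 * τ ^ 19 + 5163 * τ ^ 20 + 1945 * τ ^ 21 + 508 *
      τ ^ 22 + 86 * τ ^ 23 + 7 * τ ^ 24) * h13
  exact one_ne_zero h1

theorem geom {F K : Type} [Field F] [Field K] [Algebra F K] (h : K) (τ ν : F)
    (hq : h ^ 2 = algebraMap F K τ * h - algebraMap F K ν) (t : ℕ) :
    (∑ k ∈ Finset.range t, h ^ k =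
      algebraMap F K (sq τ ν t) * h + algebraMap F K (cq τ ν t)) ∧
    (∑ k ∈ Finset.range (t + 1), h ^ k =
      algebraMap F K (sq τ ν (t + 1)) * h + algebraMap F K (cq τ ν (t + 1))) := by
  induction t with
  | zero => simp [sq, cq]
  | succ t ih =>
    refine ⟨ih.2, ?_⟩
    have h1 : ∑ k ∈ Finset.range (t + 1 + 1), h ^ k =
        h * ∑ k ∈ Finset.range (t + 1), h ^ k + 1 := by
      rw [Finset.sum_range_succ', Finset.mul_sum, pow_zero]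
      congr 1
      exact Finset.sum_congr rfl (fun k _ => by ring)
    have h2 : ∑ k ∈ Finset.range (t + 1), h ^ k =
        h * ∑ k ∈ Finset.range t, h ^ k + 1 := by
      rw [Finset.sum_range_succ', Finset.mul_sum, pow_zero]
      congr 1
      exact Finset.sum_congr rfl (fun k _ => by ring)
    rw [sq_rec, cq_rec]
    simp only [map_add, map_sub, map_mul, map_one]
    rw [ih.1] at h2
    rw [ih.2] at h1 h2
    rw [h1]
    linear_combination (h - algebraMap F K τ) * h2 +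
      (algebraMap F K (sq τ ν t) * h + algebraMap F K (cq τ ν t)) * hq

theorem core {F K : Type} [Field F] [Field K] [Algebra F K] (hK : Module.finrank F K = 2)
    (c h θ : K) (hh : h ∉ Set.range (algebraMap F K)) (hh1 : h ≠ 1) (hc : c ≠ 0)
    (H : ∀ t ∈ ({0, 1, 4, 10, 18, 23, 25} : Set ℕ), ∃ v : F, c * h ^ t = θ + algebraMap F K v) :
    False := by
  -- the quadratic equation of `h`
  obtain ⟨τ, ν, hq⟩ : ∃ τ ν : F, h ^ 2 = algebraMap F K τ * h - algebraMap F K ν := by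
    have hli : LinearIndependent F ![(1 : K), h] := by
      rw [LinearIndependent.pair_iff]
      intro s t hst
      have ht : t = 0 := by
        by_contra ht
        apply hh
        refine ⟨-s / t, ?_⟩
        have ht' : algebraMap F K t ≠ 0 := by simpa using ht
        rw [map_div₀, map_neg]
        rw [Algebra.smul_def, Algebra.smul_def] at hst
        field_simp
        linear_combination -hst
      refine ⟨?_, ht⟩
      rw [ht, zero_smul, add_zero, Algebra.smul_def, mul_one] at hst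
      simpa using hst
    have hspan := hli.span_eq_top_of_card_eq_finrank (by rw [hK]; simp)
    have hmem : h ^ 2 ∈ Submodule.span F (Set.range ![(1 : K), h]) := by rw [hspan]; trivial
    have hr : Set.range ![(1 : K), h] = {1, h} := by
      ext y
      simp only [Set.mem_range, Fin.exists_fin_two, Set.mem_insert_iff, Set.mem_singleton_iff,
        Matrix.cons_val_zero, Matrix.cons_val_one]
      rw [eq_comm (a := y) (b := 1), eq_comm (a := y) (b := h)]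
    rw [hr, Submodule.mem_span_pair] at hmem
    obtain ⟨a, b, hab⟩ := hmem
    refine ⟨b, -a, ?_⟩
    rw [← hab, Algebra.smul_def, Algebra.smul_def, map_neg]
    ring
  have H0 := H 0 (by simp)
  have H1 := H 1 (by simp)
  obtain ⟨v0, hv0⟩ := H0
  obtain ⟨v1, hv1⟩ := H1
  rw [pow_zero, mul_one] at hv0
  rw [pow_one] at hv1
  have hw : c * (h - 1) = algebraMap F K (v1 - v0) := by
    rw [map_sub]; linear_combination hv1 - hv0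
  have hw0 : v1 - v0 ≠ 0 := by
    intro h0
    rw [h0, map_zero] at hw
    exact (mul_ne_zero hc (sub_ne_zero.mpr hh1)) hw
  have key : ∀ t ∈ ({0, 1, 4, 10, 18, 23, 25} : Set ℕ), sq τ ν t = 0 := by
    intro t ht
    obtain ⟨v, hv⟩ := H t ht
    have hg := (geom h τ ν hq t).1
    have hgs := mul_geom_sum h t
    rw [hg] at hgs
    -- (v1 - v0) * G = v - v0
    have e1 : (h - 1) * (algebraMap F K (v1 - v0) *
        (algebraMap F K (sq τ ν t) * h + algebraMap F K (cq τ ν t)) -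
        algebraMap F K (v - v0)) = 0 := by
      rw [map_sub (algebraMap F K) v v0]
      linear_combination (algebraMap F K (v1 - v0)) * hgs - (h ^ t - 1) * hw +
        (h - 1) * (hv - hv0)
    have e2 := (mul_eq_zero.mp e1).resolve_left (sub_ne_zero.mpr hh1)
    by_contra hs
    apply hh
    have hs' : algebraMap F K ((v1 - v0) * sq τ ν t) ≠ 0 := by
      rw [Ne, map_eq_zero]; exact mul_ne_zero hw0 hs
    refine ⟨((v - v0) - (v1 - v0) * cq τ ν t) / ((v1 - v0) * sq τ ν t), ?_⟩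
    rw [map_div₀, div_eq_iff hs', map_sub, map_mul, map_mul]
    linear_combination -e2
  have k4 := key 4 (by simp)
  have hν : ν = τ ^ 2 + τ + 1 := by
    simp only [sq] at k4
    linear_combination -k4
  subst hν
  exact cert τ (key 10 (by simp)) (key 23 (by simp)) (key 25 (by simp))

theorem aux (F K : Type) [Field F] [Finite F] [Field K] [Algebra F K]
    (hK : Module.finrank F K = 2) (θ : Kˣ) (hθ : ∀ u : Kˣ, u ∈ Subgroup.zpowers θ)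
    (M : ℕ) (hM : M = Nat.card F ^ 2 - 1) (m : ℤ) (s : ZMod M)
    (H : ∀ t ∈ T, ∃ a : ZMod M, (∃ v : F, (θ : K) ^ a.val = θ + algebraMap F K v) ∧
      (t : ZMod M) = (m : ZMod M) * a + s) : False := by
  have hfin : Module.Finite F K := Module.finite_of_finrank_pos (by rw [hK]; norm_num)
  have hKfin : Finite K := Module.finite_of_finite F
  have hq2 : 2 ≤ Nat.card F := Finite.one_lt_card
  have hcardK : Nat.card K = Nat.card F ^ 2 := by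
    rw [Module.natCard_eq_pow_finrank (K := F), hK]
  have hM3 : 3 ≤ M := by
    have : 2 ^ 2 ≤ Nat.card F ^ 2 := Nat.pow_le_pow_left hq2 2
    omega
  have hcardU : Nat.card Kˣ = M := by
    rw [Nat.card_units, hcardK, hM]
  have hord : orderOf θ = M := by
    rw [← hcardU]; exact orderOf_eq_card_of_forall_mem_zpowers hθ
  have : NeZero M := ⟨by omega⟩
  have : Fact (1 < M) := ⟨by omega⟩
  -- powers depend only on residues
  have hpow : ∀ a b : ℕ, ((a : ZMod M) = (b : ZMod M)) → (θ : K) ^ a = (θ : K) ^ b := by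
    intro a b hab
    have h1 : a ≡ b [MOD M] := (ZMod.natCast_eq_natCast_iff a b M).mp hab
    have h2 : θ ^ a = θ ^ b := by
      rw [pow_eq_pow_iff_modEq, hord]; exact h1
    have h3 := congrArg (Units.val) h2
    simpa using h3
  obtain ⟨a0, ha0, e0⟩ := H 0 (by simp [T])
  obtain ⟨a1, ha1, e1⟩ := H 1 (by simp [T])
  set n : ZMod M := a1 - a0 with hn
  have hmn : (m : ZMod M) * n = 1 := by
    rw [hn]
    push_cast at e0 e1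
    linear_combination e0 - e1
  -- `θ` is not in `F`
  have hθF : (θ : K) ∉ Set.range (algebraMap F K) := by
    rintro ⟨w, hw⟩
    have hsurj : Function.Surjective (algebraMap F K) := by
      intro y
      by_cases hy : y = 0
      · exact ⟨0, by rw [hy, map_zero]⟩
      · obtain ⟨k, hk⟩ := Subgroup.mem_zpowers_iff.mp (hθ (Units.mk0 y hy))
        refine ⟨w ^ k, ?_⟩
        rw [map_zpow₀, hw]
        have := congrArg Units.val hk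
        simpa using this
    have h1 := Nat.card_le_card_of_surjective _ hsurj
    rw [hcardK] at h1
    nlinarith [hq2]
  obtain ⟨v0, hv0⟩ := ha0
  obtain ⟨v1, hv1⟩ := ha1
  set c : K := (θ : K) ^ a0.val with hc
  set h : K := (θ : K) ^ n.val with hh
  have hc0 : c ≠ 0 := pow_ne_zero _ θ.ne_zero
  have hch : ∀ (t : ℕ) (a : ZMod M), (t : ZMod M) = (m : ZMod M) * a + s →
      (θ : K) ^ a.val = c * h ^ t := by
    intro t a ht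
    rw [hc, hh, ← pow_mul, ← pow_add]
    apply hpow
    push_cast
    rw [ZMod.natCast_zmod_val, ZMod.natCast_zmod_val, ZMod.natCast_zmod_val]
    push_cast at e0
    have h1 : (m : ZMod M) * (a - a0) = t := by linear_combination e0 - ht
    have h2 : a - a0 = n * t := by
      have : n * ((m : ZMod M) * (a - a0)) = n * t := by rw [h1]
      linear_combination this - (a - a0) * hmn
    linear_combination h2
  have hh1 : h ≠ 1 := by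
    intro h1
    have h2 : θ ^ n.val = 1 := Units.ext (by simpa using h1)
    have h3 := orderOf_dvd_of_pow_eq_one h2
    rw [hord] at h3
    have h4 : n.val < M := ZMod.val_lt n
    have h5 : n.val = 0 := Nat.eq_zero_of_dvd_of_lt h3 h4
    have h6 : n = 0 := (ZMod.val_eq_zero n).mp h5
    rw [h6, mul_zero] at hmn
    exact zero_ne_one hmn
  have hhF : h ∉ Set.range (algebraMap F K) := by
    rintro ⟨w, hw⟩
    have h1 := hch 1 a1 (by push_cast at e1 ⊢; exact e1)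
    rw [hv1, pow_one, hv0, ← hw] at h1
    have hw1 : algebraMap F K (w - 1) ≠ 0 := by
      rw [map_sub, map_one, hw]; exact sub_ne_zero.mpr hh1
    apply hθF
    refine ⟨(v1 - v0 * w) / (w - 1), ?_⟩
    rw [map_div₀, div_eq_iff hw1]
    simp only [map_sub, map_mul, map_one]
    linear_combination h1
  refine core hK c h θ hhF hh1 hc0 ?_
  intro t ht
  obtain ⟨a, ⟨v, hv⟩, ha⟩ := H (t : ℤ) (by
    simp only [T, Set.mem_insert_iff, Set.mem_singleton_iff] at ht ⊢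
    omega)
  refine ⟨v, ?_⟩
  rw [← hv]
  exact (hch t a (by push_cast at ha; exact ha)).symm

/-- For no prime power `q`, integer `m` and residue `s` is the ruler `T` contained in
`m * Bose₂(q,1) + s`. -/
theorem result (F K : Type) [Field F] [Finite F] [Field K] [Algebra F K]
    (hK : Module.finrank F K = 2) (θ : Kˣ) (hθ : ∀ u : Kˣ, u ∈ Subgroup.zpowers θ)
    (m : ℤ) (s : ZMod (Nat.card F ^ 2 - 1)) :
    ¬ ∀ t ∈ T, ∃ a ∈ Bose F K (θ : K), (t : ZMod (Nat.card F ^ 2 - 1)) =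
      (m : ZMod (Nat.card F ^ 2 - 1)) * a + s :=
  fun H => aux F K hK θ hθ _ rfl m s H

end Pool.Agent.Results.MP_cb32b9_nt.NotInBoseChowla
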